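import Pool.Agent.helper70.LZ.SpecZ
import Pool.Agent.helper58.LE.HHE

set_option autoImplicit false

namespace Pool.Agent.LE

open Pool.Agent.helper58.DC Pool.Agent.DI Pool.Agent.GR Pool.Agent.OB Pool.Agent.DR Pool.Agent.FI Pool.Agent.FI3 Pool.Agent.FI4

theorem HEZ_one (p c : ℕ) : Her p (HBE p c) := by
  constructor
  · rintro G _ _ D T N _ hDN _ _ _ ⟨⟨z, hz, hne⟩, hc⟩
    refine ⟨⟨⟨z, hDN hz⟩, Subgroup.mem_subgroupOf.2 hz, fun h => hne (congrArg Subtype.val h)⟩, ?_⟩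
    rw [HHE_cardS hDN]
    exact hc
  · rintro G _ _ D T y _ _ _ ⟨⟨z, hz, hne⟩, hc⟩
    refine ⟨⟨y * z * y⁻¹, mem_cjS.2 ?_, fun h => hne ?_⟩, ?_⟩
    · have h2 : y⁻¹ * (y * z * y⁻¹) * y = z := by group
      rw [h2]
      exact hz
    · rw [conj_pow] at h
      have h4 : y⁻¹ * (y * z ^ p ^ (c - 1) * y⁻¹) * y = z ^ p ^ (c - 1) := by group
      rw [← h4, h]
      group
    · rw [HHE_cardC]
      exact hc

/-- **HEZ**: heredity. -/
theorem HEZ : HEZ_stmt := by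
  intro p _ c
  have h1 : Her p (HBE p c) := HEZ_one p c
  have h2 : Her p (HWE p c) := HerT_wit (p ^ (c - 1))
  have h3 : Her p (HZE p) := HHE_cnt (p ^ 2)
  exact ⟨h1, HerT_and h1 h2, HerT_and h1 h3, HerT_and (HerT_and h1 h2) h3⟩

end Pool.Agent.LE
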