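import Pool.Agent.helper70.LZ.SpecZ

set_option autoImplicit false

namespace Pool.Agent.LE

open Pool.Agent.helper58.DC Pool.Agent.DI Pool.Agent.GR Pool.Agent.OB Pool.Agent.DR Pool.Agent.FI Pool.Agent.FI3 Pool.Agent.FI4

theorem ZNG (hNRC : NRC_stmt) : ZNG_stmt := by
  intro n hn P hμ
  classical
  have hcard : (primitiveRoots n ℂ).card = Nat.totient n := Complex.card_primitiveRoots n
  have hφ : 0 < Nat.totient n := Nat.totient_pos.2 hn
  obtain ⟨N, hN⟩ := hNRC n hn P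
  have hN0 : N ≠ 0 := by
    rintro rfl
    rw [Int.cast_zero, Finset.prod_eq_zero_iff] at hN
    obtain ⟨μ, h1, h2⟩ := hN
    exact hμ μ h1 h2
  have hle : 1 ≤ N.natAbs := Int.natAbs_pos.2 hN0
  have hprod : ∏ μ ∈ primitiveRoots n ℂ, ‖Polynomial.aeval μ P‖ = (N.natAbs : ℝ) := by
    rw [← norm_prod, hN, Complex.norm_intCast, Nat.cast_natAbs, Int.cast_abs]
  have hprod2 : 1 ≤ ∏ μ ∈ primitiveRoots n ℂ, ‖Polynomial.aeval μ P‖ ^ 2 := by
    rw [Finset.prod_pow, hprod]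
    exact one_le_pow₀ (by exact_mod_cast hle)
  have hφR : (0 : ℝ) < (Nat.totient n : ℝ) := by exact_mod_cast hφ
  have hag := Real.geom_mean_le_arith_mean_weighted (primitiveRoots n ℂ) (fun _ => (Nat.totient n : ℝ)⁻¹)
    (fun μ => ‖Polynomial.aeval μ P‖ ^ 2) (fun _ _ => by positivity)
    (by rw [Finset.sum_const, hcard, nsmul_eq_mul, mul_inv_cancel₀ hφR.ne']) (fun _ _ => by positivity)
  rw [← Finset.mul_sum, Real.finsetProd_rpow _ _ (fun _ _ => by positivity)] at hag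
  have h5 : (1 : ℝ) ≤ (∏ μ ∈ primitiveRoots n ℂ, ‖Polynomial.aeval μ P‖ ^ 2) ^ ((Nat.totient n : ℝ)⁻¹) :=
    Real.one_le_rpow hprod2 (by positivity)
  have h7 := h5.trans hag
  rw [inv_mul_eq_div, le_div_iff₀ hφR, one_mul] at h7
  exact h7

end Pool.Agent.LE
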