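import Pool.Agent.helper70.LZ.SpecW

set_option autoImplicit false

namespace Pool.Agent.LE

open Pool.Agent.helper58.DC Pool.Agent.DI Pool.Agent.GR Pool.Agent.OB Pool.Agent.DR Pool.Agent.FI Pool.Agent.FI3 Pool.Agent.FI4

/-- the powers `z ^ j`, `j ≡ s` -/
def WFM_J {G : Type} [Group G] (p : ℕ) (z : G) (s : ℕ) : Set G := {a | ∃ j : ℕ, j ≡ s [MOD p] ∧ z ^ j = a}

theorem WFM_Cz {G : Type} [Group G] (z x : G) : x ∈ Cz (⊤ : Subgroup G) z ↔ z * x = x * z := by
  unfold Cz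
  rw [top_inf_eq, Subgroup.mem_centralizer_singleton_iff]
  exact eq_comm

theorem WFM_cardJ {G : Type} [Group G] [Finite G] (p : ℕ) (hp : p.Prime) (z : G) (e : ℕ) (he : 1 ≤ e)
    (ho : orderOf z = p ^ e) (s : ℕ) : Nat.card (WFM_J p z s) = p ^ (e - 1) := by
  classical
  have hpe : p ^ e = p * p ^ (e - 1) := by
    rw [← pow_succ']
    congr 1
    omega
  have hb : Function.Bijective (fun i : Fin (p ^ (e - 1)) => (⟨z ^ (s + p * (i : ℕ)), ⟨s + p * (i : ℕ), by
      unfold Nat.ModEq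
      rw [Nat.add_mul_mod_self_left], rfl⟩⟩ : WFM_J p z s)) := by
    constructor
    · intro i i' h
      have h1 : z ^ (s + p * (i : ℕ)) = z ^ (s + p * (i' : ℕ)) := congrArg Subtype.val h
      rw [pow_eq_pow_iff_modEq, ho, hpe] at h1
      have h2 : p * (i : ℕ) ≡ p * (i' : ℕ) [MOD p * p ^ (e - 1)] := Nat.ModEq.add_left_cancel' s h1
      have h3 : (i : ℕ) ≡ (i' : ℕ) [MOD p ^ (e - 1)] := Nat.ModEq.mul_left_cancel' hp.ne_zero h2
      exact Fin.ext (Nat.ModEq.eq_of_lt_of_lt h3 i.2 i'.2)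
    · rintro ⟨a, j, hj, rfl⟩
      have h0 : s ≤ j + p ^ e * s := by
        have : 1 ≤ p ^ e := Nat.one_le_pow _ _ hp.pos
        nlinarith
      have h1 : j + p ^ e * s ≡ s [MOD p] := by
        have h2 : p ^ e * s ≡ 0 [MOD p] := (Nat.modEq_zero_iff_dvd).2 ((dvd_pow_self p (by omega)).mul_right s)
        have h3 := hj.add h2
        rwa [add_zero] at h3
      obtain ⟨i₀, hi₀⟩ := (Nat.modEq_iff_dvd' h0).1 h1.symm
      have hpos : 0 < p ^ (e - 1) := pow_pos hp.pos _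
      refine ⟨⟨i₀ % p ^ (e - 1), Nat.mod_lt _ hpos⟩, ?_⟩
      refine Subtype.ext ?_
      show z ^ (s + p * (i₀ % p ^ (e - 1))) = z ^ j
      have h4 : p * (i₀ % p ^ (e - 1)) ≡ p * i₀ [MOD p ^ e] := by
        rw [hpe]
        exact Nat.ModEq.mul_left' p (Nat.mod_modEq _ _)
      have h5 : s + p * (i₀ % p ^ (e - 1)) ≡ j + p ^ e * s [MOD p ^ e] := by
        have h6 := (Nat.ModEq.refl (n := p ^ e) s).add h4
        rw [← hi₀, Nat.add_sub_cancel' h0] at h6
        exact h6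
      have h7 : s + p * (i₀ % p ^ (e - 1)) ≡ j [MOD p ^ e] := by
        refine h5.trans ?_
        unfold Nat.ModEq
        rw [Nat.add_mul_mod_self_left]
      rw [pow_eq_pow_iff_modEq, ho]
      exact h7
  rw [← Nat.card_congr (Equiv.ofBijective _ hb), Nat.card_fin]

/-- an inverse exponent -/
theorem WFM_inv {G : Type} [Group G] (p : ℕ) (hp : p.Prime) (z : G) (e : ℕ) (he : 1 ≤ e) (ho : orderOf z = p ^ e)
    (j : ℕ) (hj : ¬ p ∣ j) : ∃ t : ℕ, j * t ≡ 1 [MOD p ^ e] ∧ (z ^ j) ^ t = z := by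
  have hc : Nat.Coprime j (p ^ e) := Nat.Coprime.pow_right e ((Nat.Prime.coprime_iff_not_dvd hp).2 hj).symm
  have h1e : 1 < p ^ e := Nat.one_lt_pow (by omega) hp.one_lt
  obtain ⟨t, -, ht0⟩ := Nat.exists_mul_mod_eq_one_of_coprime hc h1e
  have ht : j * t ≡ 1 [MOD p ^ e] := by
    unfold Nat.ModEq
    rw [ht0, Nat.mod_eq_of_lt h1e]
  refine ⟨t, ht, ?_⟩
  rw [← pow_mul]
  have h1 : z ^ (j * t) = z ^ 1 := by
    rw [pow_eq_pow_iff_modEq, ho]
    exact ht
  rw [h1, pow_one]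

theorem WFM : WFM_stmt := by
  classical
  intro p hp G _ _ z e f he ho L hCL hL hidx s hs
  have hJ : ∀ (g : L) (a : WFM_J p z s), (g : G) * (a : G) * (g : G)⁻¹ ∈ WFM_J p z s := by
    rintro ⟨g, hg⟩ ⟨a, j, hj, rfl⟩
    obtain ⟨t, ht, hgz⟩ := hL g hg
    refine ⟨t * j, ?_, ?_⟩
    · have := ht.mul hj
      rwa [one_mul] at this
    · show z ^ (t * j) = g * z ^ j * g⁻¹
      rw [pow_mul, ← hgz, conj_pow]
  let act : MulAction L (WFM_J p z s) :=
    { smul := fun g a => ⟨(g : G) * (a : G) * (g : G)⁻¹, hJ g a⟩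
      one_smul := fun a => Subtype.ext (by
        show ((1 : L) : G) * (a : G) * ((1 : L) : G)⁻¹ = (a : G)
        simp)
      mul_smul := fun g h a => Subtype.ext (by
        show ((g * h : L) : G) * (a : G) * ((g * h : L) : G)⁻¹ = (g : G) * ((h : G) * (a : G) * (h : G)⁻¹) * (g : G)⁻¹
        push_cast
        group) }
  have hsm : ∀ (g : L) (a : WFM_J p z s), ((g • a : WFM_J p z s) : G) = (g : G) * (a : G) * (g : G)⁻¹ := fun _ _ => rfl
  have hndvd : ∀ j : ℕ, j ≡ s [MOD p] → ¬ p ∣ j := by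
    intro j hj h
    exact hs ((Nat.ModEq.dvd_iff hj dvd_rfl).1 h)
  have hst : ∀ a : WFM_J p z s, MulAction.stabilizer L a = (Cz (⊤ : Subgroup G) z).subgroupOf L := by
    rintro ⟨a, j, hj, rfl⟩
    obtain ⟨t, ht, hzt⟩ := WFM_inv p hp z e he ho j (hndvd j hj)
    ext g
    rw [MulAction.mem_stabilizer_iff, Subgroup.mem_subgroupOf, WFM_Cz]
    constructor
    · intro h
      have h1 : (g : G) * z ^ j * (g : G)⁻¹ = z ^ j := congrArg Subtype.val h
      have h2 : (g : G) * (z ^ j) ^ t * (g : G)⁻¹ = (z ^ j) ^ t := by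
        rw [← conj_pow, h1]
      rw [hzt] at h2
      exact (mul_inv_eq_iff_eq_mul.1 h2).symm
    · intro h
      refine Subtype.ext ?_
      rw [hsm]
      have h1 : (g : G) * z * (g : G)⁻¹ = z := by
        rw [mul_inv_eq_iff_eq_mul]
        exact h.symm
      show (g : G) * z ^ j * (g : G)⁻¹ = z ^ j
      rw [← conj_pow, h1]
  set Ω := MulAction.orbitRel.Quotient L (WFM_J p z s) with hΩ
  have hfin : Finite Ω := inferInstance
  have : Fintype Ω := Fintype.ofFinite Ω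
  have hcard : Fintype.card Ω * p ^ f = p ^ (e - 1) := by
    have h1 : Nat.card (WFM_J p z s) = Nat.card (Σ ω : Ω, L ⧸ MulAction.stabilizer L ω.out) :=
      Nat.card_congr (MulAction.selfEquivSigmaOrbitsQuotientStabilizer L (WFM_J p z s))
    rw [WFM_cardJ p hp z e he ho s, Nat.card_sigma] at h1
    rw [h1]
    have h2 : ∀ ω : Ω, Nat.card (L ⧸ MulAction.stabilizer L ω.out) = p ^ f := by
      intro ω
      rw [hst]
      exact hidx
    rw [Finset.sum_congr rfl fun ω _ => h2 ω, Finset.sum_const, Finset.card_univ, smul_eq_mul]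
  have hjex : ∀ i : Fin (Fintype.card Ω), ∃ j : ℕ, j ≡ s [MOD p] ∧
      z ^ j = (((Fintype.equivFin Ω).symm i).out : WFM_J p z s) := fun i => (((Fintype.equivFin Ω).symm i).out).2
  choose j hj1 hj2 using hjex
  refine ⟨Fintype.card Ω, j, hcard, hj1, ?_⟩
  intro i i' hii g hg
  constructor
  · intro hgL
    apply hii
    have h1 : (⟨g, hgL⟩ : L) • ((Fintype.equivFin Ω).symm i).out = ((Fintype.equivFin Ω).symm i').out := by
      refine Subtype.ext ?_
      rw [hsm, ← hj2 i, ← hj2 i']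
      exact hg
    have h2 : (Fintype.equivFin Ω).symm i = (Fintype.equivFin Ω).symm i' := by
      rw [← Quotient.out_eq' ((Fintype.equivFin Ω).symm i), ← Quotient.out_eq' ((Fintype.equivFin Ω).symm i')]
      refine Quotient.sound' ?_
      refine Setoid.symm' _ ?_
      rw [MulAction.orbitRel_apply]
      exact ⟨⟨g, hgL⟩, h1⟩
    exact (Fintype.equivFin Ω).symm.injective h2
  · obtain ⟨t, ht, hzt⟩ := WFM_inv p hp z e he ho (j i) (hndvd _ (hj1 i))
    refine ⟨j i' * t, ?_, ?_⟩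
    · have h1 : j i' ≡ j i [MOD p] := (hj1 i').trans (hj1 i).symm
      have h2 : j i * t ≡ 1 [MOD p] := ht.of_dvd (dvd_pow_self p (by omega))
      exact (h1.mul_right t).trans h2
    · have h3 : g * (z ^ j i) ^ t * g⁻¹ = (z ^ j i') ^ t := by
        rw [← conj_pow, hg]
      rw [hzt] at h3
      rw [h3, pow_mul]

end Pool.Agent.LE
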