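import Pool.Agent.helper70.LZ.SpecW

set_option autoImplicit false

namespace Pool.Agent.LE

open Pool.Agent.helper58.DC Pool.Agent.DI Pool.Agent.GR Pool.Agent.OB Pool.Agent.DR Pool.Agent.FI Pool.Agent.FI3 Pool.Agent.FI4

theorem WNG (hZNG : ZNG_stmt) : WNG_stmt := by
  intro n hn ζ hζ P hP
  refine hZNG n hn P fun μ hμ h0 => hP ?_
  have hμ' : IsPrimitiveRoot μ n := (mem_primitiveRoots hn).1 hμ
  have h1 : minpoly ℤ μ ∣ P := minpoly.isIntegrallyClosed_dvd (hμ'.isIntegral hn) h0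
  have h2 : Polynomial.cyclotomic n ℤ ∣ P := by
    rw [Polynomial.cyclotomic_eq_minpoly hμ' hn]
    exact h1
  obtain ⟨Q, hQ⟩ := h2
  rw [hQ, map_mul]
  have h3 : Polynomial.aeval ζ (Polynomial.cyclotomic n ℤ) = 0 := by
    rw [Polynomial.cyclotomic_eq_minpoly hζ hn]
    exact minpoly.aeval ℤ ζ
  rw [h3, zero_mul]

end Pool.Agent.LE
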